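import Mathlib

/-!
# Winnable Latvian hat games do not force a large fractional hat guessing number

For every `k ≥ 2` there is a strongly connected nontrivial digraph `D` with a winnable Latvian
game `(D, h)`, `h ≥ k`, `h` not constantly `k`, and with fractional hat guessing number exactly
`k` (so not larger than `k`).

The digraph: a complete digraph on `k` vertices, a complete digraph on two more vertices
`c₁, c₂`, one arc from `c₁` to a vertex `a` of the big complete digraph and one arc from another
vertex `b` of it to `c₁`.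
-/

namespace Pool.Agent.Results.MP_22519f_co.Counterexample

open Finset

/-- The hat guessing game `(D, g, h)` on the digraph `E` (`E u v`: the vertex `u` sees the vertex
`v`) is winnable: there are rules `f v` naming a set of `g v` colours out of the `h v` colours of
`v`, depending only on the colours of the vertices which `v` sees, such that for every colouring
`c` some vertex `v` names its own colour. -/
def Winnable {V : Type} (E : V → V → Prop) (g h : V → ℕ) : Prop :=
  ∃ f : (v : V) → ((u : V) → Fin (h u)) → Finset (Fin (h v)),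
    (∀ v c, (f v c).card = g v) ∧
    (∀ v c c', (∀ u, E v u → c u = c' u) → f v c = f v c') ∧
    ∀ c, ∃ v, c v ∈ f v c

/-- `μ_s(D)`: the largest `m > s` for which the Polish game `(D, ⋆s, ⋆m)` is winnable. -/
noncomputable def muS {V : Type} (E : V → V → Prop) (s : ℕ) : ℕ :=
  sSup {m : ℕ | s < m ∧ Winnable E (fun _ => s) (fun _ => m)}

/-- The fractional hat guessing number: the supremum of `μ_s(D) / s` over all `s ≥ 1`. -/
noncomputable def hatMu {V : Type} (E : V → V → Prop) : ℝ :=
  ⨆ s : {s : ℕ // 1 ≤ s}, (muS E s.1 : ℝ) / (s.1 : ℝ)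

/-- `S` is redundant in the subdigraph induced on `W`: every out-neighbour of `S` is an
out-neighbour of every in-neighbour of `S` (all inside `W`). -/
def Redundant {V : Type} (E : V → V → Prop) (W S : Set V) : Prop :=
  S ⊆ W ∧ ∀ u ∈ W, (∃ s ∈ S, E u s) → ∀ x ∈ W, (∃ s ∈ S, E s x) → E u x

/-- `W` is a set of vertices which is left after deleting redundant sets one after the other. -/
inductive Reduces {V : Type} (E : V → V → Prop) : Set V → Prop
  | start : Reduces E Set.univ
  | step {W S : Set V} : Reduces E W → Redundant E W S → Reduces E (W \ S)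

/-- The digraph is trivial: after deleting redundant sets in some way, every strongly connected
component of what is left is a complete digraph. -/
def IsTrivial {V : Type} (E : V → V → Prop) : Prop :=
  ∃ W : Set V, Reduces E W ∧ ∀ x ∈ W, ∀ y ∈ W, x ≠ y →
    Relation.ReflTransGen (fun a b => a ∈ W ∧ b ∈ W ∧ E a b) x y →
    Relation.ReflTransGen (fun a b => a ∈ W ∧ b ∈ W ∧ E a b) y x → E x y

/-- The digraph of the counterexample. -/
def D (k : ℕ) : Fin k ⊕ Bool → Fin k ⊕ Bool → Prop
  | Sum.inl i, Sum.inl j => i ≠ j
  | Sum.inr a, Sum.inr b => a ≠ b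
  | Sum.inr b, Sum.inl i => b = false ∧ i.1 = 0
  | Sum.inl i, Sum.inr b => i.1 = 1 ∧ b = false

lemma D_loopless (k : ℕ) (v : Fin k ⊕ Bool) : ¬ D k v v := by
  rcases v with i | b <;> simp [D]

/-- Every vertex of `D k` lies on a digon. -/
lemma D_digon {k : ℕ} (hk : 2 ≤ k) (v : Fin k ⊕ Bool) : ∃ u, D k v u ∧ D k u v := by
  rcases v with i | b
  · obtain ⟨j, hj⟩ : ∃ j : Fin k, j ≠ i := by
      have : Nontrivial (Fin k) := Fin.nontrivial_iff_two_le.mpr hk
      exact exists_ne i
    exact ⟨Sum.inl j, by simpa [D] using hj.symm, by simpa [D] using hj⟩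
  · exact ⟨Sum.inr (!b), by simp [D], by simp [D]⟩

/-- There are no non-empty redundant sets, hence nothing can be deleted. -/
lemma redundant_empty {k : ℕ} (hk : 2 ≤ k) {S : Set (Fin k ⊕ Bool)}
    (h : Redundant (D k) Set.univ S) : S = ∅ := by
  by_contra hne
  obtain ⟨s, hs⟩ := Set.nonempty_iff_ne_empty.mpr hne
  obtain ⟨u, hu1, hu2⟩ := D_digon hk s
  exact D_loopless k u (h.2 u (Set.mem_univ _) ⟨s, hs, hu2⟩ u (Set.mem_univ _) ⟨s, hs, hu1⟩)

lemma reduces_univ {k : ℕ} (hk : 2 ≤ k) {W : Set (Fin k ⊕ Bool)} (h : Reduces (D k) W) :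
    W = Set.univ := by
  induction h with
  | start => rfl
  | step h1 h2 ih =>
    subst ih
    rw [redundant_empty hk h2]
    simp

lemma D_conn {k : ℕ} (hk : 2 ≤ k) (u v : Fin k ⊕ Bool) : Relation.ReflTransGen (D k) u v := by
  have h00 : ∀ i j : Fin k, Relation.ReflTransGen (D k) (Sum.inl i) (Sum.inl j) := by
    intro i j
    by_cases h : i = j
    · rw [h]
    · exact Relation.ReflTransGen.single (by simpa [D] using h)
  have h11 : ∀ a b : Bool, Relation.ReflTransGen (D k) (Sum.inr a) (Sum.inr b) := by
    intro i j
    by_cases h : i = j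
    · rw [h]
    · exact Relation.ReflTransGen.single (by simpa [D] using h)
  have ha : Relation.ReflTransGen (D k) (Sum.inr false) (Sum.inl ⟨0, by omega⟩) :=
    Relation.ReflTransGen.single (by simp [D])
  have hb : Relation.ReflTransGen (D k) (Sum.inl ⟨1, by omega⟩) (Sum.inr false) :=
    Relation.ReflTransGen.single (by simp [D])
  rcases u with i | a <;> rcases v with j | b
  · exact h00 i j
  · exact ((h00 i _).trans hb).trans (h11 _ b)
  · exact ((h11 a _).trans ha).trans (h00 _ j)
  · exact h11 a b

lemma D_nontrivial {k : ℕ} (hk : 2 ≤ k) : ¬ IsTrivial (D k) := by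
  rintro ⟨W, hW, h⟩
  have hu := reduces_univ hk hW
  subst hu
  have hmono : ∀ u v, Relation.ReflTransGen
      (fun a b => a ∈ (Set.univ : Set (Fin k ⊕ Bool)) ∧ b ∈ (Set.univ : Set (Fin k ⊕ Bool)) ∧
        D k a b) u v := by
    intro u v
    have hle : D k ≤ (fun a b => a ∈ (Set.univ : Set (Fin k ⊕ Bool)) ∧
        b ∈ (Set.univ : Set (Fin k ⊕ Bool)) ∧ D k a b) :=
      fun a b hab => ⟨Set.mem_univ _, Set.mem_univ _, hab⟩
    exact Relation.ReflTransGen.mono hle u v (D_conn hk u v)
  have := h (Sum.inr true) (Set.mem_univ _) (Sum.inl ⟨0, by omega⟩) (Set.mem_univ _)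
    (by simp) (hmono _ _) (hmono _ _)
  simp [D] at this

/-- A partition of `k * s` colours into `k` classes of size `s`. -/
lemma exists_class (N k s : ℕ) (h : N = k * s) :
    ∃ q : Fin N → Fin k, ∀ r, (univ.filter fun x => q x = r).card = s := by
  subst h
  refine ⟨fun x => (finProdFinEquiv.symm x).1, fun r => ?_⟩
  have : (univ.filter fun x : Fin (k * s) => (finProdFinEquiv.symm x).1 = r) =
      (univ : Finset (Fin s)).map
        ⟨fun y => finProdFinEquiv (r, y), fun a b hab => by
          have := finProdFinEquiv.injective hab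
          simpa using this⟩ := by
    ext x
    rw [mem_filter, mem_map]
    constructor
    · rintro ⟨-, hx⟩
      refine ⟨(finProdFinEquiv.symm x).2, mem_univ _, ?_⟩
      show finProdFinEquiv (r, (finProdFinEquiv.symm x).2) = x
      rw [← hx, Prod.mk.eta, Equiv.apply_symm_apply]
    · rintro ⟨y, -, rfl⟩
      refine ⟨mem_univ _, ?_⟩
      show (finProdFinEquiv.symm (finProdFinEquiv (r, y))).1 = r
      rw [Equiv.symm_apply_apply]
  rw [this, card_map, card_univ, Fintype.card_fin]

/-- The complete digraph on `k` vertices wins with `s` guesses out of `k * s` colours. -/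
lemma win {k : ℕ} (hk : 2 ≤ k) (g h : Fin k ⊕ Bool → ℕ)
    (hh : ∀ i, h (Sum.inl i) = k * g (Sum.inl i)) (hb : ∀ b, g (Sum.inr b) ≤ h (Sum.inr b)) :
    Winnable (D k) g h := by
  classical
  have : NeZero k := ⟨by omega⟩
  choose q hq using fun i : Fin k => exists_class (h (Sum.inl i)) k (g (Sum.inl i)) (hh i)
  have hT : ∀ b : Bool, ∃ T : Finset (Fin (h (Sum.inr b))), T.card = g (Sum.inr b) := by
    intro b
    obtain ⟨T, -, hT⟩ := Finset.exists_subset_card_eq
      (s := (univ : Finset (Fin (h (Sum.inr b))))) (n := g (Sum.inr b)) (by simpa using hb b)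
    exact ⟨T, hT⟩
  choose T hT using hT
  refine ⟨fun v => match v with
    | Sum.inl i => fun c => univ.filter fun x : Fin (h (Sum.inl i)) =>
        q i x + ∑ j ∈ univ.erase i, q j (c (Sum.inl j)) = i
    | Sum.inr b => fun _ => T b, ?_, ?_, ?_⟩
  · rintro (i | b) c
    · have := hq i (i - ∑ j ∈ univ.erase i, q j (c (Sum.inl j)))
      simp only [eq_sub_iff_add_eq] at this
      exact this
    · exact hT b
  · rintro (i | b) c c' hcc
    · have : ∑ j ∈ univ.erase i, q j (c (Sum.inl j)) =
          ∑ j ∈ univ.erase i, q j (c' (Sum.inl j)) := by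
        refine Finset.sum_congr rfl fun j hj => ?_
        have hji : j ≠ i := (Finset.mem_erase.mp hj).1
        rw [hcc (Sum.inl j) (by simpa [D] using hji.symm)]
      simp only [this]
    · rfl
  · intro c
    refine ⟨Sum.inl (∑ j, q j (c (Sum.inl j))), ?_⟩
    simp only [mem_filter, mem_univ, true_and]
    exact Finset.add_sum_erase univ (fun j => q j (c (Sum.inl j))) (Finset.mem_univ _)

/-- If `g t` has `s` elements and does not depend on the coordinate `t i`, then `t i ∈ g t` holds
for the fraction `s / m` of all `t`. -/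
lemma count_hits {k m s : ℕ} (i : Fin k) (g : (Fin k → Fin m) → Finset (Fin m))
    (hg : ∀ t, (g t).card = s) (hi : ∀ t v, g (Function.update t i v) = g t) :
    m * (univ.filter fun t : Fin k → Fin m => t i ∈ g t).card = s * m ^ k := by
  classical
  let F : (Fin k → Fin m) → ℕ := fun t => if t i ∈ g t then 1 else 0
  have hF : (univ.filter fun t : Fin k → Fin m => t i ∈ g t).card = ∑ t, F t := by
    rw [Finset.card_filter]
  let e : ((Fin k → Fin m) × Fin m) ≃ ((Fin k → Fin m) × Fin m) :=
    { toFun := fun p => (Function.update p.1 i p.2, p.1 i)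
      invFun := fun p => (Function.update p.1 i p.2, p.1 i)
      left_inv := by rintro ⟨t, v⟩; simp
      right_inv := by rintro ⟨t, v⟩; simp }
  have h1 : ∑ p : (Fin k → Fin m) × Fin m, F (e p).1 = ∑ p : (Fin k → Fin m) × Fin m, F p.1 :=
    Equiv.sum_comp e (fun p => F p.1)
  have h2 : ∑ p : (Fin k → Fin m) × Fin m, F p.1 = m * ∑ t, F t := by
    rw [Fintype.sum_prod_type]
    simp [Finset.mul_sum]
  have h3 : ∑ p : (Fin k → Fin m) × Fin m, F (e p).1 = s * m ^ k := by
    rw [Fintype.sum_prod_type]
    have : ∀ t : Fin k → Fin m, ∑ v, F (e (t, v)).1 = s := by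
      intro t
      have : ∀ v, F (e (t, v)).1 = if v ∈ g t then 1 else 0 := by
        intro v
        simp only [F, e, Equiv.coe_fn_mk, Function.update_self, hi]
      simp only [this]
      rw [← Finset.card_filter]
      rw [← hg t]
      congr 1
      ext v
      simp
    simp only [this]
    simp [mul_comm]
  rw [hF, ← h2, ← h1, h3]

/-- The colouring with colours `t` on the large clique and `y`, `z` on `c₁`, `c₂`. -/
def col {k m : ℕ} (t : Fin k → Fin m) (y z : Fin m) : Fin k ⊕ Bool → Fin m
  | Sum.inl i => t i
  | Sum.inr false => y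
  | Sum.inr true => z

/-- With `s` guesses and more than `k * s` colours the game is lost. -/
lemma lose {k : ℕ} (hk : 2 ≤ k) {s m : ℕ} (hm : k * s < m) :
    ¬ Winnable (D k) (fun _ => s) (fun _ => m) := by
  rintro ⟨f, hcard, hdep, hwin⟩
  have hmpos : 0 < m := by omega
  let o : Fin m := ⟨0, hmpos⟩
  let a : Fin k := ⟨0, by omega⟩
  let b : Fin k := ⟨1, by omega⟩
  -- the two extra vertices lose for every colour `x` of `a`
  have hpair : ∀ x : Fin m, ∃ p : Fin m × Fin m,
      p.1 ∉ f (Sum.inr false) (col (fun _ => x) o p.2) ∧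
      p.2 ∉ f (Sum.inr true) (col (fun _ => o) p.1 o) := by
    intro x
    by_contra hcon
    push Not at hcon
    let X : Finset (Fin m × Fin m) := univ.biUnion fun z : Fin m =>
      (f (Sum.inr false) (col (fun _ => x) o z)).image fun y => (y, z)
    let Y : Finset (Fin m × Fin m) := univ.biUnion fun y : Fin m =>
      (f (Sum.inr true) (col (fun _ => o) y o)).image fun z => (y, z)
    have hcov : (univ : Finset (Fin m × Fin m)) ⊆ X ∪ Y := by
      rintro ⟨y, z⟩ -
      simp only [X, Y, mem_union, mem_biUnion, mem_univ, true_and, mem_image, Prod.mk.injEq]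
      by_cases h1 : y ∈ f (Sum.inr false) (col (fun _ => x) o z)
      · exact Or.inl ⟨z, y, h1, rfl, rfl⟩
      · exact Or.inr ⟨y, z, hcon (y, z) h1, rfl, rfl⟩
    have hc := Finset.card_le_card hcov
    have h1 : X.card ≤ m * s := by
      refine (Finset.card_biUnion_le).trans ?_
      refine (Finset.sum_le_card_nsmul _ _ s fun z _ => ?_).trans ?_
      · exact (Finset.card_image_le).trans (hcard _ _).le
      · simp
    have h2 : Y.card ≤ m * s := by
      refine (Finset.card_biUnion_le).trans ?_
      refine (Finset.sum_le_card_nsmul _ _ s fun z _ => ?_).trans ?_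
      · exact (Finset.card_image_le).trans (hcard _ _).le
      · simp
    have h3 := Finset.card_union_le X Y
    have h4 : (univ : Finset (Fin m × Fin m)).card = m * m := by
      simp
    have h5 : m * m ≤ m * s + m * s := by
      rw [← h4]; omega
    have h6 : m ≤ s + s := by
      have : m * m ≤ m * (s + s) := by rw [Nat.mul_add]; exact h5
      exact Nat.le_of_mul_le_mul_left this hmpos
    have h7 : 2 * s ≤ k * s := Nat.mul_le_mul_right s hk
    omega
  choose l hl1 hl2 using hpair
  let C : (Fin k → Fin m) → (Fin k ⊕ Bool → Fin m) := fun t => col t (l (t a)).1 (l (t a)).2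
  -- the rule of the vertex `i` does not depend on `t i`
  have hindep : ∀ i : Fin k, ∀ t v,
      f (Sum.inl i) (C (Function.update t i v)) = f (Sum.inl i) (C t) := by
    intro i t v
    refine hdep _ _ _ ?_
    rintro (j | c) huj
    · have hji : j ≠ i := by
        have : i ≠ j := by simpa [D] using huj
        exact this.symm
      show Function.update t i v j = t j
      rw [Function.update_of_ne hji]
    · have h1 : i.1 = 1 ∧ c = false := by simpa [D] using huj
      have hai : a ≠ i := by
        intro h
        have : (0 : ℕ) = i.1 := by rw [← h]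
        omega
      show col _ _ _ (Sum.inr c) = col _ _ _ (Sum.inr c)
      rw [h1.2]
      show (l (Function.update t i v a)).1 = (l (t a)).1
      rw [Function.update_of_ne hai]
  have hcount : ∀ i : Fin k,
      m * (univ.filter fun t : Fin k → Fin m => t i ∈ f (Sum.inl i) (C t)).card = s * m ^ k :=
    fun i => count_hits i (fun t => f (Sum.inl i) (C t)) (fun t => hcard _ _) (hindep i)
  have hex : ∃ t : Fin k → Fin m, ∀ i, t i ∉ f (Sum.inl i) (C t) := by
    by_contra hcon
    push Not at hcon
    have hcov : (univ : Finset (Fin k → Fin m)) ⊆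
        univ.biUnion fun i : Fin k => univ.filter fun t : Fin k → Fin m =>
          t i ∈ f (Sum.inl i) (C t) := by
      intro t _
      obtain ⟨i, hi⟩ := hcon t
      simp only [mem_biUnion, mem_univ, true_and, mem_filter]
      exact ⟨i, hi⟩
    have hc := (Finset.card_le_card hcov).trans Finset.card_biUnion_le
    have h1 : m * (univ : Finset (Fin k → Fin m)).card ≤ k * (s * m ^ k) := by
      calc m * (univ : Finset (Fin k → Fin m)).card
          ≤ m * ∑ i : Fin k, (univ.filter fun t : Fin k → Fin m =>
              t i ∈ f (Sum.inl i) (C t)).card := Nat.mul_le_mul_left m hc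
        _ = ∑ i : Fin k, m * (univ.filter fun t : Fin k → Fin m =>
              t i ∈ f (Sum.inl i) (C t)).card := by rw [Finset.mul_sum]
        _ = k * (s * m ^ k) := by
              rw [Finset.sum_congr rfl fun i _ => hcount i]
              simp
    have h2 : (univ : Finset (Fin k → Fin m)).card = m ^ k := by simp
    rw [h2, ← mul_assoc] at h1
    have h3 : 0 < m ^ k := Nat.pow_pos hmpos
    have h4 : m ≤ k * s := Nat.le_of_mul_le_mul_right h1 h3
    omega
  obtain ⟨t, ht⟩ := hex
  obtain ⟨v, hv⟩ := hwin (C t)
  rcases v with i | c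
  · exact ht i hv
  · cases c
    · apply hl1 (t a)
      have : f (Sum.inr false) (C t) = f (Sum.inr false) (col (fun _ => t a) o (l (t a)).2) := by
        refine hdep _ _ _ ?_
        rintro (j | c) huj
        · have hj : j.1 = 0 := by simpa [D] using huj
          have hja : j = a := Fin.ext hj
          show t j = t a
          rw [hja]
        · have hc : c = true := by
            have : false ≠ c := by simpa [D] using huj
            cases c
            · exact absurd rfl this
            · rfl
          subst hc
          rfl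
      rw [← this]
      exact hv
    · apply hl2 (t a)
      have : f (Sum.inr true) (C t) = f (Sum.inr true) (col (fun _ => o) (l (t a)).1 o) := by
        refine hdep _ _ _ ?_
        rintro (j | c) huj
        · simp [D] at huj
        · have hc : c = false := by
            have : true ≠ c := by simpa [D] using huj
            cases c
            · rfl
            · exact absurd rfl this
          subst hc
          rfl
      rw [← this]
      exact hv

lemma greatest {k : ℕ} (hk : 2 ≤ k) {s : ℕ} (hs : 1 ≤ s) :
    IsGreatest {m : ℕ | s < m ∧ Winnable (D k) (fun _ => s) (fun _ => m)} (k * s) := by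
  constructor
  · refine ⟨?_, ?_⟩
    · have : 2 * s ≤ k * s := Nat.mul_le_mul_right s hk
      omega
    · refine win hk _ _ (fun i => rfl) (fun b => ?_)
      exact Nat.le_mul_of_pos_left s (by omega)
  · rintro m ⟨-, hm⟩
    by_contra hlt
    exact lose hk (not_le.mp hlt) hm

/-- **Answer to Q1: no, for every `k ≥ 2`.**  For every `k ≥ 2` there are a finite loopless
strongly connected nontrivial digraph `E` and a function `h ≥ k`, not the constant `k`, such that
the Latvian game `(E, h)` is winnable and yet the fractional hat guessing number of `E` equals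
`k`.  More precisely `μ_s = k s` for every `s ≥ 1`.  Moreover `E` has no non-empty redundant set
at all. -/
theorem result (k : ℕ) (hk : 2 ≤ k) :
    ∃ (V : Type) (_ : Fintype V) (E : V → V → Prop) (h : V → ℕ),
      (∀ v, ¬ E v v) ∧
      (∀ u v, Relation.ReflTransGen E u v) ∧
      ¬ IsTrivial E ∧
      (∀ S : Set V, Redundant E Set.univ S → S = ∅) ∧
      (∀ v, k ≤ h v) ∧
      (∃ v, h v ≠ k) ∧
      Winnable E (fun _ => 1) h ∧
      (∀ s, 1 ≤ s →
        IsGreatest {m : ℕ | s < m ∧ Winnable E (fun _ => s) (fun _ => m)} (k * s)) ∧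
      hatMu E = k ∧ ¬ (hatMu E > k) := by
  have hmu : hatMu (D k) = k := by
    unfold hatMu
    have : ∀ s : {s : ℕ // 1 ≤ s}, (muS (D k) s.1 : ℝ) / (s.1 : ℝ) = k := by
      rintro ⟨s, hs⟩
      have h1 : muS (D k) s = k * s := (greatest hk hs).csSup_eq
      have h2 : (s : ℝ) ≠ 0 := by
        have : 0 < s := by omega
        positivity
      simp only [h1]
      push_cast
      field_simp
    simp only [this]
    have : Nonempty {s : ℕ // 1 ≤ s} := ⟨⟨1, le_refl 1⟩⟩
    exact ciSup_const
  refine ⟨Fin k ⊕ Bool, inferInstance, D k,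
    fun v => match v with
      | Sum.inl _ => k
      | Sum.inr _ => k + 1,
    D_loopless k, D_conn hk, D_nontrivial hk, fun S hS => redundant_empty hk hS, ?_, ?_, ?_,
    fun s hs => greatest hk hs, hmu, ?_⟩
  · rintro (i | b) <;> simp
  · exact ⟨Sum.inr false, by simp⟩
  · exact win hk _ _ (fun i => by simp) (fun b => by simp)
  · rw [hmu]; exact lt_irrefl _

end Pool.Agent.Results.MP_22519f_co.Counterexample
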